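import Pool.Agent.Q82.CL.Fin

/-!
# The weak combinatorial type `W` of four conics and four lines is realizable

`W` has as components four smooth conics `C₁, …, C₄` and four lines `L₁, …, L₄`, and as singular
points four points of type `A₃` (the line `L_i` is tangent to the conic `C_i`, with no other common
point) and nine ordinary quadruple points, on the components `C₁ C₂ L₃ L₄`, three times
`C₁ C₂ C₃ C₄`, `L₁ L₂ C₃ C₄`, `C₁ L₂ L₃ C₄`, `C₁ L₂ C₃ L₄`, `L₁ C₂ L₃ C₄`, `L₁ C₂ C₃ L₄`.

There is a curve with this weak combinatorial type, so the answer to Q1 is yes. Moreover the four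
cubics `L_i C_i` can be taken in one pencil. The example is defined over `ℚ(i)`; with
`w = -(x + y + z)` it is

* `L₁ = x`, `L₂ = y`, `L₃ = z`, `L₄ = w`;
* `C₁ = (-3 - 4i) z w + (-3 + 4i) y w + 4 y z`;
* `C₂ = (3 + 4i) z w + 2i x w + x z`;
* `C₃ = (4 + 3i) y w + 2 x w + i x y`;
* `C₄ = 4 y z + x z + x y`.
-/

set_option autoImplicit false

open MvPolynomial

namespace Pool.Agent.Results.MP_0c03d4_ag.Realizable

open Pool.Agent.Q82.CL

/-- **The weak combinatorial type `W` is realizable**, by a curve for which the four cubics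
`L_i C_i` belong to one pencil. -/
theorem result : ∃ K : Fin 8 → MvPolynomial (Fin 3) ℂ, HasTypeW K ∧
    (∃ a b : ℂ, K 2 * K 6 = C a * (K 0 * K 4) + C b * (K 1 * K 5)) ∧
    ∃ a b : ℂ, K 3 * K 7 = C a * (K 0 * K 4) + C b * (K 1 * K 5) :=
  ⟨comps, comps_typeW, pencil_2, pencil_3⟩

end Pool.Agent.Results.MP_0c03d4_ag.Realizable
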